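import Pool.Agent.V11112.NX3

set_option linter.all false

namespace Pool.Agent.Results.MP_55f1f5_an.WholeSpace

/-- `N(X)`: the nonexpansive maps `X → X`. As a subtype of the function space `X → X` it carries
the topology of pointwise convergence. -/
abbrev Nonexpansive (X : Type*) [NormedAddCommGroup X] : Type _ :=
  {f : X → X // ∀ x y, ‖f x - f y‖ ≤ ‖x - y‖}

/-- `F(X)`: the nonexpansive maps that leave some nonempty, closed, convex, bounded set
invariant. -/
def InvSet (X : Type*) [NormedAddCommGroup X] [NormedSpace ℝ X] : Set (Nonexpansive X) :=
  {f | ∃ K : Set X, K.Nonempty ∧ IsClosed K ∧ Convex ℝ K ∧ Bornology.IsBounded K ∧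
    Set.MapsTo f.1 K K}

/-- The case `C = X`: for every real Banach space `X` the set `F(X)` is meager or residual; in the
second case it even contains a dense open set. -/
theorem result (X : Type*) [NormedAddCommGroup X] [NormedSpace ℝ X] [CompleteSpace X] :
    IsMeagre (InvSet X) ∨
      (InvSet X ∈ residual (Nonexpansive X) ∧
        ∃ U : Set (Nonexpansive X), IsOpen U ∧ Dense U ∧ U ⊆ InvSet X) := by
  rcases Pool.Agent.V11112.NX1.main (X := X) with h | h
  · exact Or.inl h
  · right
    refine ⟨?_, interior (InvSet X), isOpen_interior, h, interior_subset⟩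
    exact Filter.mem_of_superset (residual_of_dense_open isOpen_interior h) interior_subset

end Pool.Agent.Results.MP_55f1f5_an.WholeSpace
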